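import Mathlib

/-!
Signs of three numbers with sum even (for the directions of the regular tetrahedron).
-/

set_option autoImplicit false

namespace Pool.Agent.QG129.TaskLink

/-- not in the open interval `(-1, 0)` -/
def NP (u : ℝ) : Prop := ¬ (-1 < u ∧ u < 0)

/-- not positive -/
def NN (u : ℝ) : Prop := ¬ (0 < u)

theorem not_NP {u : ℝ} (h : ¬ NP u) : u < 0 ∧ -1 < u := (not_not.1 h).symm

theorem not_NN {u : ℝ} (h : ¬ NN u) : 0 < u ∧ -1 < u := by
  have h1 : 0 < u := not_not.1 h
  exact ⟨h1, by linarith⟩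

set_option maxHeartbeats 4000000 in
/-- no mixed signs -/
theorem mixed (u1 u2 u3 : ℝ) (k : ℝ) (hk : k = -1 ∨ k = 0 ∨ k = 1)
    (h3 : u3 = u1 + u2 - 2 * k) (l1 : -1 ≤ u1) (l2 : -1 ≤ u2) (l3 : -1 ≤ u3)
    (r1 : u1 < 1) (r2 : u2 < 1) (r3 : u3 < 1) :
    (|u3| = |u1| + |u2| → (NP u1 ∧ NP u2 ∧ NP u3) ∨ (NN u1 ∧ NN u2 ∧ NN u3)) ∧
    (|u1| = |u2| + |u3| → (NP u1 ∧ NN u2 ∧ NP u3) ∨ (NN u1 ∧ NP u2 ∧ NN u3)) ∧
    (|u2| = |u1| + |u3| → (NN u1 ∧ NP u2 ∧ NP u3) ∨ (NP u1 ∧ NN u2 ∧ NN u3)) ∧
    (|u1| + |u2| + |u3| = 2 → (NP u1 ∧ NP u2 ∧ NN u3) ∨ (NN u1 ∧ NN u2 ∧ NP u3)) := by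
  refine ⟨?_, ?_, ?_, ?_⟩
  all_goals
    intro ha
    by_contra hcon
    rw [not_or] at hcon
    obtain ⟨hP, hN⟩ := hcon
    simp only [not_and_or] at hP hN
    rcases hP with hP | hP | hP
    all_goals
      first
        | replace hP := not_NP hP
        | replace hP := not_NN hP
      obtain ⟨p1, p2⟩ := hP
      rcases hN with hN | hN | hN
      all_goals
        first
          | replace hN := not_NP hN
          | replace hN := not_NN hN
        obtain ⟨n1, n2⟩ := hN
        first
          | exact absurd p1 (not_lt.2 n1.le)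
          | skip
  all_goals
    first
      | rw [abs_of_neg (a := u1) (by assumption)] at ha
      | rw [abs_of_pos (a := u1) (by assumption)] at ha
      | skip
    first
      | rw [abs_of_neg (a := u2) (by assumption)] at ha
      | rw [abs_of_pos (a := u2) (by assumption)] at ha
      | skip
    first
      | rw [abs_of_neg (a := u3) (by assumption)] at ha
      | rw [abs_of_pos (a := u3) (by assumption)] at ha
      | skip
    first
      | (rcases abs_choice u1 with e | e <;> rw [e] at ha <;> rcases hk with rfl | rfl | rfl <;> linarith)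
      | (rcases abs_choice u2 with e | e <;> rw [e] at ha <;> rcases hk with rfl | rfl | rfl <;> linarith)
      | (rcases abs_choice u3 with e | e <;> rw [e] at ha <;> rcases hk with rfl | rfl | rfl <;> linarith)

end Pool.Agent.QG129.TaskLink
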