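import Pool.Agent.Helper129.QG.Defs

set_option autoImplicit false

namespace Pool.Agent.QG129.TaskFrontier

open Set Pool.Agent.Helper129.QG

/-- the strict inequalities -/
def U : Set E3 := {p | p 0 + p 1 - p 2 < 1 ∧ p 0 - p 1 + p 2 < 1 ∧ -p 0 + p 1 + p 2 < 1 ∧
  -p 0 - p 1 - p 2 < 1}

theorem cont (i : Fin 3) : Continuous fun p : E3 => p i := by fun_prop

theorem isOpen_U : IsOpen U := by
  have h1 : IsOpen {p : E3 | p 0 + p 1 - p 2 < 1} := isOpen_lt (by fun_prop) continuous_const
  have h2 : IsOpen {p : E3 | p 0 - p 1 + p 2 < 1} := isOpen_lt (by fun_prop) continuous_const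
  have h3 : IsOpen {p : E3 | -p 0 + p 1 + p 2 < 1} := isOpen_lt (by fun_prop) continuous_const
  have h4 : IsOpen {p : E3 | -p 0 - p 1 - p 2 < 1} := isOpen_lt (by fun_prop) continuous_const
  exact h1.inter (h2.inter (h3.inter h4))

theorem isClosed_tet : IsClosed tet := by
  have h1 : IsClosed {p : E3 | p 0 + p 1 - p 2 ≤ 1} := isClosed_le (by fun_prop) continuous_const
  have h2 : IsClosed {p : E3 | p 0 - p 1 + p 2 ≤ 1} := isClosed_le (by fun_prop) continuous_const
  have h3 : IsClosed {p : E3 | -p 0 + p 1 + p 2 ≤ 1} := isClosed_le (by fun_prop) continuous_const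
  have h4 : IsClosed {p : E3 | -p 0 - p 1 - p 2 ≤ 1} := isClosed_le (by fun_prop) continuous_const
  exact h1.inter (h2.inter (h3.inter h4))

theorem push {p : E3} (hp : p ∈ interior tet) (n : E3) : ∃ t : ℝ, 0 < t ∧ p + t • n ∈ tet := by
  have h1 : Continuous fun t : ℝ => p + t • n := by fun_prop
  have h2 : tet ∈ nhds (p + (0 : ℝ) • n) := by
    rw [zero_smul, add_zero]
    exact mem_interior_iff_mem_nhds.1 hp
  have h3 := h1.continuousAt.preimage_mem_nhds h2
  obtain ⟨ε, hε, h4⟩ := Metric.mem_nhds_iff.1 h3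
  refine ⟨ε / 2, by positivity, h4 ?_⟩
  rw [Metric.mem_ball, dist_zero_right, Real.norm_eq_abs, abs_of_pos (by positivity)]
  linarith

theorem interior_tet : interior tet = U := by
  apply Subset.antisymm
  · intro p hp
    have hp' := interior_subset hp
    obtain ⟨h1, h2, h3, h4⟩ := hp'
    refine ⟨lt_of_le_of_ne h1 fun h => ?_, lt_of_le_of_ne h2 fun h => ?_,
      lt_of_le_of_ne h3 fun h => ?_, lt_of_le_of_ne h4 fun h => ?_⟩
    · obtain ⟨t, ht, h5, -, -, -⟩ := push hp !₂[1, 1, -1]
      simp at h5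
      linarith
    · obtain ⟨t, ht, -, h5, -, -⟩ := push hp !₂[1, -1, 1]
      simp at h5
      linarith
    · obtain ⟨t, ht, -, -, h5, -⟩ := push hp !₂[-1, 1, 1]
      simp at h5
      linarith
    · obtain ⟨t, ht, -, -, -, h5⟩ := push hp !₂[-1, -1, -1]
      simp at h5
      linarith
  · refine isOpen_U.subset_interior_iff.2 fun p hp => ?_
    exact ⟨hp.1.le, hp.2.1.le, hp.2.2.1.le, hp.2.2.2.le⟩

theorem ext3 {p q : E3} (h0 : p 0 = q 0) (h1 : p 1 = q 1) (h2 : p 2 = q 2) : p = q := by
  ext i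
  fin_cases i
  · exact h0
  · exact h1
  · exact h2

theorem main (h : TaskHull) : TaskFrontier := by
  refine ⟨⟨0, ?_⟩, ?_, ?_, ?_⟩
  · rw [interior_tet]
    simp [U]
  · rw [isClosed_tet.frontier_eq, interior_tet]
    ext p
    simp only [mem_sdiff, mem_ofPred_eq]
    refine and_congr_right fun hp => ?_
    obtain ⟨h1, h2, h3, h4⟩ := hp
    constructor
    · intro h5
      by_contra h6
      push Not at h6
      exact h5 ⟨lt_of_le_of_ne h1 h6.1, lt_of_le_of_ne h2 h6.2.1, lt_of_le_of_ne h3 h6.2.2.1,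
        lt_of_le_of_ne h4 h6.2.2.2⟩
    · rintro (h5 | h5 | h5 | h5) ⟨h6, h7, h8, h9⟩ <;> linarith
  · apply Subset.antisymm
    · rw [show tet = convexHull ℝ (verts : Set E3) from h]
      exact extremePoints_convexHull_subset
    · intro v hv
      rw [mem_extremePoints_iff_left]
      have hv' : v = !₂[1, 1, 1] ∨ v = !₂[1, -1, -1] ∨ v = !₂[-1, 1, -1] ∨ v = !₂[-1, -1, 1] := by
        simpa [verts] using hv
      rcases hv' with rfl | rfl | rfl | rfl
      · refine ⟨by refine ⟨?_, ?_, ?_, ?_⟩ <;> simp <;> norm_num, fun x hx y hy hxy => ?_⟩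
        obtain ⟨a, b, ha, hb, hab, h1⟩ := hxy
        obtain ⟨x1, x2, x3, x4⟩ := hx
        obtain ⟨y1, y2, y3, y4⟩ := hy
        have e0 := congrArg (fun p : E3 => p 0) h1
        have e1 := congrArg (fun p : E3 => p 1) h1
        have e2 := congrArg (fun p : E3 => p 2) h1
        simp at e0 e1 e2
        have k1 : x 0 + x 1 - x 2 = 1 := by nlinarith
        have k2 : x 0 - x 1 + x 2 = 1 := by nlinarith
        have k3 : -x 0 + x 1 + x 2 = 1 := by nlinarith
        apply ext3 <;> simp <;> linarith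
      · refine ⟨by refine ⟨?_, ?_, ?_, ?_⟩ <;> simp <;> norm_num, fun x hx y hy hxy => ?_⟩
        obtain ⟨a, b, ha, hb, hab, h1⟩ := hxy
        obtain ⟨x1, x2, x3, x4⟩ := hx
        obtain ⟨y1, y2, y3, y4⟩ := hy
        have e0 := congrArg (fun p : E3 => p 0) h1
        have e1 := congrArg (fun p : E3 => p 1) h1
        have e2 := congrArg (fun p : E3 => p 2) h1
        simp at e0 e1 e2
        have k1 : x 0 + x 1 - x 2 = 1 := by nlinarith
        have k2 : x 0 - x 1 + x 2 = 1 := by nlinarith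
        have k3 : -x 0 - x 1 - x 2 = 1 := by nlinarith
        apply ext3 <;> simp <;> linarith
      · refine ⟨by refine ⟨?_, ?_, ?_, ?_⟩ <;> simp <;> norm_num, fun x hx y hy hxy => ?_⟩
        obtain ⟨a, b, ha, hb, hab, h1⟩ := hxy
        obtain ⟨x1, x2, x3, x4⟩ := hx
        obtain ⟨y1, y2, y3, y4⟩ := hy
        have e0 := congrArg (fun p : E3 => p 0) h1
        have e1 := congrArg (fun p : E3 => p 1) h1
        have e2 := congrArg (fun p : E3 => p 2) h1
        simp at e0 e1 e2
        have k1 : x 0 + x 1 - x 2 = 1 := by nlinarith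
        have k3 : -x 0 - x 1 - x 2 = 1 := by nlinarith
        have k4 : -x 0 + x 1 + x 2 = 1 := by nlinarith
        apply ext3 <;> simp <;> linarith
      · refine ⟨by refine ⟨?_, ?_, ?_, ?_⟩ <;> simp <;> norm_num, fun x hx y hy hxy => ?_⟩
        obtain ⟨a, b, ha, hb, hab, h1⟩ := hxy
        obtain ⟨x1, x2, x3, x4⟩ := hx
        obtain ⟨y1, y2, y3, y4⟩ := hy
        have e0 := congrArg (fun p : E3 => p 0) h1
        have e1 := congrArg (fun p : E3 => p 1) h1
        have e2 := congrArg (fun p : E3 => p 2) h1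
        simp at e0 e1 e2
        have k1 : x 0 - x 1 + x 2 = 1 := by nlinarith
        have k2 : -x 0 + x 1 + x 2 = 1 := by nlinarith
        have k3 : -x 0 - x 1 - x 2 = 1 := by nlinarith
        apply ext3 <;> simp <;> linarith
  · have hne : ∀ p q : E3, (p 0 ≠ q 0 ∨ p 1 ≠ q 1 ∨ p 2 ≠ q 2) → p ≠ q := by
      rintro p q h rfl
      simp at h
    unfold verts
    rw [Finset.card_insert_of_notMem, Finset.card_insert_of_notMem, Finset.card_insert_of_notMem,
      Finset.card_singleton]
    · rw [Finset.mem_singleton]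
      exact hne _ _ (Or.inr (Or.inl (by simp; norm_num)))
    · rw [Finset.mem_insert, Finset.mem_singleton, not_or]
      exact ⟨hne _ _ (Or.inl (by simp; norm_num)), hne _ _ (Or.inl (by simp; norm_num))⟩
    · rw [Finset.mem_insert, Finset.mem_insert, Finset.mem_singleton, not_or, not_or]
      exact ⟨hne _ _ (Or.inr (Or.inl (by simp; norm_num))), hne _ _ (Or.inl (by simp; norm_num)),
        hne _ _ (Or.inl (by simp; norm_num))⟩

end Pool.Agent.QG129.TaskFrontier
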