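import Pool.Agent.Helper129.QG.Defs

/-!
# The regular tetrahedron is the convex hull of its vertices
-/

set_option autoImplicit false

namespace Pool.Agent.QG129.TaskHull

open Set Pool.Agent.Helper129.QG

theorem convex_tet : Convex ℝ tet := by
  intro p hp q hq a b ha hb hab
  obtain ⟨p1, p2, p3, p4⟩ := hp
  obtain ⟨q1, q2, q3, q4⟩ := hq
  have hb' : b = 1 - a := by linarith
  have e : ∀ i, (a • p + b • q) i = a * p i + b * q i := fun i => by simp
  refine ⟨?_, ?_, ?_, ?_⟩
  · rw [e, e, e]
    nlinarith [mul_le_mul_of_nonneg_left p1 ha, mul_le_mul_of_nonneg_left q1 hb]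
  · rw [e, e, e]
    nlinarith [mul_le_mul_of_nonneg_left p2 ha, mul_le_mul_of_nonneg_left q2 hb]
  · rw [e, e, e]
    nlinarith [mul_le_mul_of_nonneg_left p3 ha, mul_le_mul_of_nonneg_left q3 hb]
  · rw [e, e, e]
    nlinarith [mul_le_mul_of_nonneg_left p4 ha, mul_le_mul_of_nonneg_left q4 hb]

theorem main : TaskHull := by
  unfold TaskHull
  apply Subset.antisymm
  · intro p hp
    obtain ⟨p1, p2, p3, p4⟩ := hp
    have := (convex_convexHull ℝ (verts : Set E3)).sum_mem (t := (Finset.univ : Finset (Fin 4)))
      (w := ![(1 + p 0 + p 1 + p 2) / 4, (1 + p 0 - p 1 - p 2) / 4, (1 - p 0 + p 1 - p 2) / 4,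
        (1 - p 0 - p 1 + p 2) / 4])
      (z := ![!₂[1, 1, 1], !₂[1, -1, -1], !₂[-1, 1, -1], !₂[-1, -1, 1]])
      (by
        intro i _
        fin_cases i <;> simp <;> linarith)
      (by
        simp [Fin.sum_univ_four]
        ring)
      (by
        intro i _
        apply subset_convexHull
        fin_cases i <;> simp [verts])
    convert this using 1
    rw [Fin.sum_univ_four]
    ext i
    fin_cases i <;> simp <;> ring
  · refine convexHull_min ?_ convex_tet
    intro p hp
    simp only [verts, Finset.coe_insert, Finset.coe_singleton, mem_insert_iff,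
      mem_singleton_iff] at hp
    rcases hp with rfl | rfl | rfl | rfl <;>
    · refine ⟨?_, ?_, ?_, ?_⟩ <;> simp <;> norm_num

end Pool.Agent.QG129.TaskHull
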