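import Mathlib
import Pool.Agent.Helper129.QG.Defs
import Pool.Agent.QG129.Mixed

/-!
The directions of the surface of the regular tetrahedron come from directions of the plane
(task for `MP_c5a4a7_gt`).
-/

set_option autoImplicit false

namespace Pool.Agent.QG129.TaskLink

open Set Pool.Agent.Helper129.QG

/-- `dtri` in terms of the position in the period -/
noncomputable def D (u h : ℝ) : ℝ :=
  if u = 0 then -2 * |h| else if u = -1 then 2 * |h| else if 0 < u then -2 * h else 2 * h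

theorem dtri_eq (y h : ℝ) : dtri y h = D (y - 2 * ⌊(y + 1) / 2⌋) h := by
  unfold dtri D
  have e1 : (y = 2 * ⌊(y + 1) / 2⌋) ↔ (y - 2 * ⌊(y + 1) / 2⌋ = 0) := by
    constructor <;> intro h <;> linarith
  have e2 : (y = 2 * ⌊(y + 1) / 2⌋ - 1) ↔ (y - 2 * ⌊(y + 1) / 2⌋ = -1) := by
    constructor <;> intro h <;> linarith
  have e3 : (2 * (⌊(y + 1) / 2⌋ : ℝ) < y) ↔ (0 < y - 2 * ⌊(y + 1) / 2⌋) := by
    constructor <;> intro h <;> linarith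
  simp only [e1, e2, e3]

theorem D_sq (u h : ℝ) : (D u h) ^ 2 = 4 * h ^ 2 := by
  unfold D
  split_ifs
  · rw [mul_pow, sq_abs]; ring
  · rw [mul_pow, sq_abs]; ring
  · ring
  · ring

theorem D_pos (u x : ℝ) (hs0 : u = 0 → x ≤ 0) (hs1 : u = -1 → 0 ≤ x)
    (hu : -1 ≤ u) (hc : ¬ (-1 < u ∧ u < 0)) : D u (-x / 2) = x := by
  unfold D
  split_ifs with h0 h1 h2
  · have := hs0 h0
    rw [abs_of_nonneg (by linarith)]; ring
  · have := hs1 h1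
    rw [abs_of_nonpos (by linarith)]; ring
  · ring
  · exfalso
    apply hc
    constructor
    · exact lt_of_le_of_ne hu (fun h => h1 h.symm)
    · exact lt_of_le_of_ne (not_lt.1 h2) h0

theorem D_neg (u x : ℝ) (hs0 : u = 0 → x ≤ 0) (hs1 : u = -1 → 0 ≤ x)
    (hc : ¬ (0 < u)) : D u (x / 2) = x := by
  unfold D
  split_ifs with h0 h1
  · have := hs0 h0
    rw [abs_of_nonpos (by linarith)]; ring
  · have := hs1 h1
    rw [abs_of_nonneg (by linarith)]; ring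
  · ring

/-- the choice of the direction in the plane -/
theorem key (u1 u2 u3 : ℝ) (k : ℝ) (hk : k = -1 ∨ k = 0 ∨ k = 1)
    (h3 : u3 = u1 + u2 - 2 * k) (l1 : -1 ≤ u1) (l2 : -1 ≤ u2) (l3 : -1 ≤ u3)
    (r1 : u1 < 1) (r2 : u2 < 1) (r3 : u3 < 1) (x0 x1 x2 : ℝ)
    (s10 : u1 = 0 → x1 ≤ 0) (s11 : u1 = -1 → 0 ≤ x1)
    (s20 : u2 = 0 → x0 ≤ 0) (s21 : u2 = -1 → 0 ≤ x0)
    (s30 : u3 = 0 → x2 ≤ 0) (s31 : u3 = -1 → 0 ≤ x2)
    (hf : (|u3| = |u1| + |u2| ∧ x0 + x1 - x2 = 0) ∨ (|u1| = |u2| + |u3| ∧ x0 - x1 + x2 = 0) ∨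
      (|u2| = |u1| + |u3| ∧ -x0 + x1 + x2 = 0) ∨ (|u1| + |u2| + |u3| = 2 ∧ -x0 - x1 - x2 = 0)) :
    ∃ h1 h2 : ℝ, D u1 h1 = x1 ∧ D u2 h2 = x0 ∧ D u3 (h1 + h2) = x2 := by
  obtain ⟨m1, m2, m3, m4⟩ := mixed u1 u2 u3 k hk h3 l1 l2 l3 r1 r2 r3
  rcases hf with ⟨ha, hx⟩ | ⟨ha, hx⟩ | ⟨ha, hx⟩ | ⟨ha, hx⟩
  · rcases m1 ha with ⟨c1, c2, c3⟩ | ⟨c1, c2, c3⟩
    · refine ⟨-x1 / 2, -x0 / 2, D_pos _ _ s10 s11 l1 c1, D_pos _ _ s20 s21 l2 c2, ?_⟩
      rw [show -x1 / 2 + -x0 / 2 = -x2 / 2 by linarith]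
      exact D_pos _ _ s30 s31 l3 c3
    · refine ⟨x1 / 2, x0 / 2, D_neg _ _ s10 s11 c1, D_neg _ _ s20 s21 c2, ?_⟩
      rw [show x1 / 2 + x0 / 2 = x2 / 2 by linarith]
      exact D_neg _ _ s30 s31 c3
  · rcases m2 ha with ⟨c1, c2, c3⟩ | ⟨c1, c2, c3⟩
    · refine ⟨-x1 / 2, x0 / 2, D_pos _ _ s10 s11 l1 c1, D_neg _ _ s20 s21 c2, ?_⟩
      rw [show -x1 / 2 + x0 / 2 = -x2 / 2 by linarith]
      exact D_pos _ _ s30 s31 l3 c3
    · refine ⟨x1 / 2, -x0 / 2, D_neg _ _ s10 s11 c1, D_pos _ _ s20 s21 l2 c2, ?_⟩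
      rw [show x1 / 2 + -x0 / 2 = x2 / 2 by linarith]
      exact D_neg _ _ s30 s31 c3
  · rcases m3 ha with ⟨c1, c2, c3⟩ | ⟨c1, c2, c3⟩
    · refine ⟨x1 / 2, -x0 / 2, D_neg _ _ s10 s11 c1, D_pos _ _ s20 s21 l2 c2, ?_⟩
      rw [show x1 / 2 + -x0 / 2 = -x2 / 2 by linarith]
      exact D_pos _ _ s30 s31 l3 c3
    · refine ⟨-x1 / 2, x0 / 2, D_pos _ _ s10 s11 l1 c1, D_neg _ _ s20 s21 c2, ?_⟩
      rw [show -x1 / 2 + x0 / 2 = x2 / 2 by linarith]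
      exact D_neg _ _ s30 s31 c3
  · rcases m4 ha with ⟨c1, c2, c3⟩ | ⟨c1, c2, c3⟩
    · refine ⟨-x1 / 2, -x0 / 2, D_pos _ _ s10 s11 l1 c1, D_pos _ _ s20 s21 l2 c2, ?_⟩
      rw [show -x1 / 2 + -x0 / 2 = x2 / 2 by linarith]
      exact D_neg _ _ s30 s31 c3
    · refine ⟨x1 / 2, x0 / 2, D_neg _ _ s10 s11 c1, D_neg _ _ s20 s21 c2, ?_⟩
      rw [show x1 / 2 + x0 / 2 = -x2 / 2 by linarith]
      exact D_pos _ _ s30 s31 l3 c3

/-- the signs of the coordinates at the special points -/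
theorem signs (u1 u2 u3 : ℝ) (k : ℝ) (hk : k = -1 ∨ k = 0 ∨ k = 1)
    (h3 : u3 = u1 + u2 - 2 * k) (l1 : -1 ≤ u1) (l2 : -1 ≤ u2) (l3 : -1 ≤ u3)
    (r1 : u1 < 1) (r2 : u2 < 1) (r3 : u3 < 1) (x0 x1 x2 : ℝ)
    (A1 : |u3| = |u1| + |u2| → x0 + x1 - x2 ≤ 0) (A2 : |u1| = |u2| + |u3| → x0 - x1 + x2 ≤ 0)
    (A3 : |u2| = |u1| + |u3| → -x0 + x1 + x2 ≤ 0)
    (A4 : |u1| + |u2| + |u3| = 2 → -x0 - x1 - x2 ≤ 0) :
    (u1 = 0 → x1 ≤ 0) ∧ (u1 = -1 → 0 ≤ x1) ∧ (u2 = 0 → x0 ≤ 0) ∧ (u2 = -1 → 0 ≤ x0) ∧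
    (u3 = 0 → x2 ≤ 0) ∧ (u3 = -1 → 0 ≤ x2) := by
  refine ⟨?_, ?_, ?_, ?_, ?_, ?_⟩
  · intro h
    have b1 : |u3| = |u1| + |u2| := by
      rcases hk with rfl | rfl | rfl
      · exfalso; linarith
      · rw [h, abs_zero, zero_add, h3, h]; norm_num
      · exfalso; linarith
    have b3 : |u2| = |u1| + |u3| := by rw [b1, h, abs_zero]; ring
    have := A1 b1
    have := A3 b3
    linarith
  · intro h
    have b : |u2| + |u3| = 1 := by
      rcases hk with rfl | rfl | rfl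
      · rw [abs_of_nonpos (a := u2) (by linarith), abs_of_nonneg (a := u3) (by linarith)]; linarith
      · rw [abs_of_nonneg (a := u2) (by linarith), abs_of_nonpos (a := u3) (by linarith)]; linarith
      · exfalso; linarith
    have b2 : |u1| = 1 := by rw [h]; norm_num
    have := A2 (by linarith)
    have := A4 (by linarith)
    linarith
  · intro h
    have b1 : |u3| = |u1| + |u2| := by
      rcases hk with rfl | rfl | rfl
      · exfalso; linarith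
      · rw [h, abs_zero, add_zero, h3, h]; norm_num
      · exfalso; linarith
    have b3 : |u1| = |u2| + |u3| := by rw [b1, h, abs_zero]; ring
    have := A1 b1
    have := A2 b3
    linarith
  · intro h
    have b : |u1| + |u3| = 1 := by
      rcases hk with rfl | rfl | rfl
      · rw [abs_of_nonpos (a := u1) (by linarith), abs_of_nonneg (a := u3) (by linarith)]; linarith
      · rw [abs_of_nonneg (a := u1) (by linarith), abs_of_nonpos (a := u3) (by linarith)]; linarith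
      · exfalso; linarith
    have b2 : |u2| = 1 := by rw [h]; norm_num
    have := A3 (by linarith)
    have := A4 (by linarith)
    linarith
  · intro h
    have b : |u1| = |u2| := by
      rcases hk with rfl | rfl | rfl
      · have e1 : u1 = -1 := by linarith
        have e2 : u2 = -1 := by linarith
        rw [e1, e2]
      · have e1 : u1 = -u2 := by linarith
        rw [e1, abs_neg]
      · exfalso; linarith
    have b2 : |u3| = 0 := by rw [h]; norm_num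
    have := A2 (by linarith)
    have := A3 (by linarith)
    linarith
  · intro h
    have b : |u1| + |u2| = 1 := by
      rcases hk with rfl | rfl | rfl
      · exfalso; linarith
      · rw [abs_of_nonpos (a := u1) (by linarith), abs_of_nonpos (a := u2) (by linarith)]; linarith
      · rw [abs_of_nonneg (a := u1) (by linarith), abs_of_nonneg (a := u2) (by linarith)]; linarith
    have b2 : |u3| = 1 := by rw [h]; norm_num
    have := A1 (by linarith)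
    have := A4 (by linarith)
    linarith

theorem floor_bounds (y : ℝ) :
    -1 ≤ y - 2 * (⌊(y + 1) / 2⌋ : ℝ) ∧ y - 2 * (⌊(y + 1) / 2⌋ : ℝ) < 1 := by
  have h1 := Int.floor_le ((y + 1) / 2)
  have h2 := Int.lt_floor_add_one ((y + 1) / 2)
  constructor <;> linarith

theorem tri_eq (y : ℝ) : tri y = 1 - 2 * |y - 2 * (⌊(y + 1) / 2⌋ : ℝ)| := rfl

theorem vec_eq (a b c : ℝ) (x : E3) (h0 : a = x 0) (h1 : b = x 1) (h2 : c = x 2) :
    (!₂[a, b, c] : E3) = x := by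
  subst h0 h1 h2
  ext i
  fin_cases i <;> simp

set_option maxHeartbeats 4000000 in
/-- **Task C.** -/
theorem main (hF : TaskFrontier) : TaskLink := by
  intro s x hx
  obtain ⟨hn, ε, hε, hr⟩ := hx
  have hfr := hF.2.1
  obtain ⟨l1, r1⟩ := floor_bounds s.1
  obtain ⟨l2, r2⟩ := floor_bounds s.2
  obtain ⟨l3, r3⟩ := floor_bounds (s.1 + s.2)
  have t1 := tri_eq s.1
  have t2 := tri_eq s.2
  have t3 := tri_eq (s.1 + s.2)
  have d1 := dtri_eq s.1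
  have d2 := dtri_eq s.2
  have d3 := dtri_eq (s.1 + s.2)
  obtain ⟨m, hm⟩ : ∃ m : ℤ, m = ⌊(s.1 + s.2 + 1) / 2⌋ - ⌊(s.1 + 1) / 2⌋ - ⌊(s.2 + 1) / 2⌋ := ⟨_, rfl⟩
  have hmR : (m : ℝ) = (⌊(s.1 + s.2 + 1) / 2⌋ : ℝ) - ⌊(s.1 + 1) / 2⌋ - ⌊(s.2 + 1) / 2⌋ := by
    rw [hm]; push_cast; ring
  obtain ⟨u1, hu1⟩ : ∃ u : ℝ, u = s.1 - 2 * (⌊(s.1 + 1) / 2⌋ : ℝ) := ⟨_, rfl⟩
  obtain ⟨u2, hu2⟩ : ∃ u : ℝ, u = s.2 - 2 * (⌊(s.2 + 1) / 2⌋ : ℝ) := ⟨_, rfl⟩
  obtain ⟨u3, hu3⟩ : ∃ u : ℝ, u = s.1 + s.2 - 2 * (⌊(s.1 + s.2 + 1) / 2⌋ : ℝ) := ⟨_, rfl⟩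
  rw [← hu1] at l1 r1 t1 d1
  rw [← hu2] at l2 r2 t2 d2
  rw [← hu3] at l3 r3 t3 d3
  have h3 : u3 = u1 + u2 - 2 * (m : ℝ) := by rw [hmR, hu1, hu2, hu3]; ring
  have hk : (m : ℝ) = -1 ∨ (m : ℝ) = 0 ∨ (m : ℝ) = 1 := by
    have a1 : (m : ℝ) < 2 := by linarith
    have a2 : (-2 : ℝ) < m := by linarith
    have a3 : m < 2 := by exact_mod_cast a1
    have a4 : -2 < m := by exact_mod_cast a2
    have a5 : m = -1 ∨ m = 0 ∨ m = 1 := by omega
    rcases a5 with h | h | h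
    · left; rw [h]; norm_num
    · right; left; rw [h]; norm_num
    · right; right; rw [h]; norm_num
  have hq : ∀ r : ℝ, 0 ≤ r → r < ε →
      ((1 - 2 * |u2| + r * x 0) + (1 - 2 * |u1| + r * x 1) - (1 - 2 * |u3| + r * x 2) ≤ 1 ∧
       (1 - 2 * |u2| + r * x 0) - (1 - 2 * |u1| + r * x 1) + (1 - 2 * |u3| + r * x 2) ≤ 1 ∧
       -(1 - 2 * |u2| + r * x 0) + (1 - 2 * |u1| + r * x 1) + (1 - 2 * |u3| + r * x 2) ≤ 1 ∧
       -(1 - 2 * |u2| + r * x 0) - (1 - 2 * |u1| + r * x 1) - (1 - 2 * |u3| + r * x 2) ≤ 1) ∧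
      ((1 - 2 * |u2| + r * x 0) + (1 - 2 * |u1| + r * x 1) - (1 - 2 * |u3| + r * x 2) = 1 ∨
       (1 - 2 * |u2| + r * x 0) - (1 - 2 * |u1| + r * x 1) + (1 - 2 * |u3| + r * x 2) = 1 ∨
       -(1 - 2 * |u2| + r * x 0) + (1 - 2 * |u1| + r * x 1) + (1 - 2 * |u3| + r * x 2) = 1 ∨
       -(1 - 2 * |u2| + r * x 0) - (1 - 2 * |u1| + r * x 1) - (1 - 2 * |u3| + r * x 2) = 1) := by
    intro r h0 h1
    have hmem := hr r h0 h1
    rw [hfr] at hmem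
    obtain ⟨h2, h4⟩ := hmem
    have c0 : (F s + r • x) 0 = 1 - 2 * |u2| + r * x 0 := by
      rw [← t2]; simp [F]
    have c1 : (F s + r • x) 1 = 1 - 2 * |u1| + r * x 1 := by
      rw [← t1]; simp [F]
    have c2 : (F s + r • x) 2 = 1 - 2 * |u3| + r * x 2 := by
      rw [← t3]; simp [F]
    simp only [tet, Set.mem_ofPred_eq, c0, c1, c2] at h2
    simp only [c0, c1, c2] at h4
    exact ⟨h2, h4⟩
  obtain ⟨⟨z1, z2, z3, z4⟩, -⟩ := hq 0 le_rfl hε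
  obtain ⟨⟨y1, y2, y3, y4⟩, hy⟩ := hq (ε / 3) (by linarith) (by linarith)
  obtain ⟨⟨v1, v2, v3, v4⟩, -⟩ := hq (2 * ε / 3) (by linarith) (by linarith)
  have hneg : ∀ G : ℝ, ε * G ≤ 0 → G ≤ 0 := by
    intro G hG
    by_contra hc
    rw [not_le] at hc
    have := mul_pos hε hc
    linarith
  have hzero : ∀ G : ℝ, ε * G = 0 → G = 0 := by
    intro G hG
    rcases mul_eq_zero.1 hG with h | h
    · linarith
    · exact h
  have A1 : |u3| = |u1| + |u2| → x 0 + x 1 - x 2 ≤ 0 := by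
    intro h; apply hneg; linarith
  have A2 : |u1| = |u2| + |u3| → x 0 - x 1 + x 2 ≤ 0 := by
    intro h; apply hneg; linarith
  have A3 : |u2| = |u1| + |u3| → -x 0 + x 1 + x 2 ≤ 0 := by
    intro h; apply hneg; linarith
  have A4 : |u1| + |u2| + |u3| = 2 → -x 0 - x 1 - x 2 ≤ 0 := by
    intro h; apply hneg; linarith
  obtain ⟨s10, s11, s20, s21, s30, s31⟩ := signs u1 u2 u3 m hk h3 l1 l2 l3 r1 r2 r3
    (x 0) (x 1) (x 2) A1 A2 A3 A4
  have hf : (|u3| = |u1| + |u2| ∧ x 0 + x 1 - x 2 = 0) ∨ (|u1| = |u2| + |u3| ∧ x 0 - x 1 + x 2 = 0) ∨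
      (|u2| = |u1| + |u3| ∧ -x 0 + x 1 + x 2 = 0) ∨
      (|u1| + |u2| + |u3| = 2 ∧ -x 0 - x 1 - x 2 = 0) := by
    rcases hy with e | e | e | e
    · left
      have hG : ε * (x 0 + x 1 - x 2) = 0 := by linarith
      exact ⟨by linarith, hzero _ hG⟩
    · right; left
      have hG : ε * (x 0 - x 1 + x 2) = 0 := by linarith
      exact ⟨by linarith, hzero _ hG⟩
    · right; right; left
      have hG : ε * (-x 0 + x 1 + x 2) = 0 := by linarith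
      exact ⟨by linarith, hzero _ hG⟩
    · right; right; right
      have hG : ε * (-x 0 - x 1 - x 2) = 0 := by linarith
      exact ⟨by linarith, hzero _ hG⟩
  obtain ⟨h1, h2, e1, e2, e3⟩ := key u1 u2 u3 m hk h3 l1 l2 l3 r1 r2 r3 (x 0) (x 1) (x 2)
    s10 s11 s20 s21 s30 s31 hf
  have hnorm : (x 0) ^ 2 + (x 1) ^ 2 + (x 2) ^ 2 = 1 := by
    have h := EuclideanSpace.norm_sq_eq x
    rw [hn, Fin.sum_univ_three] at h
    simp only [Real.norm_eq_abs, sq_abs] at h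
    linarith
  refine ⟨(h1, h2), ?_, ?_⟩
  · have q1 := D_sq u1 h1
    have q2 := D_sq u2 h2
    have q3 := D_sq u3 (h1 + h2)
    rw [e1] at q1
    rw [e2] at q2
    rw [e3] at q3
    have q4 : 4 * (h1 + h2) ^ 2 = 4 * h1 ^ 2 + 8 * (h1 * h2) + 4 * h2 ^ 2 := by ring
    show 8 * (h1 ^ 2 + h1 * h2 + h2 ^ 2) = 1
    linarith
  · have g0 : dtri s.2 h2 = x 0 := by rw [d2, e2]
    have g1 : dtri s.1 h1 = x 1 := by rw [d1, e1]
    have g2 : dtri (s.1 + s.2) (h1 + h2) = x 2 := by rw [d3, e3]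
    exact vec_eq _ _ _ x g0 g1 g2

end Pool.Agent.QG129.TaskLink
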